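import Mathlib

/-!
Exact limits of the edge excess for d = 3 and d = 4 and every k.

Let H be the set of vertices of degree more than D (hubs). Key lemma (bad_card), valid for every
diameter r + 2: all but boundedly many vertices x outside H are such that for every set T of at most
k - 1 vertices (not containing x) there is a path of length at most r from x to a hub outside T that
avoids T. Otherwise choose T_x, let A_x be the hubs adjacent to x (a subset of T_x) and W_x the hubs
outside T_x at distance r + 1; for two such vertices far apart in G - H the graph G - T_x has a short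
path from x to y, so A_y meets W_x, while A_x and W_x are disjoint, and a set-pair argument bounds
their number. For d = 3 this gives k hub neighbours for almost all vertices, for d = 4 a discharging
argument gives average (degree + number of hub neighbours) at least k + 1.
-/

set_option autoImplicit false

namespace Pool.Agent.Results.MP_1438b7_co.SmallDiameters

open Filter Topology

/-- For every set S of k - 1 vertices, the graph G - S has diameter at most d. -/
def Good {V : Type} (G : SimpleGraph V) (d k : ℕ) : Prop :=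
  ∀ S : Finset V, S.card = k - 1 → (G.induce {v | v ∉ S}).ediam ≤ (d : ℕ∞)

/-- The minimum number of edges of a graph G on n vertices with Good G d k. -/
noncomputable def fhat (n d k : ℕ) : ℕ :=
  sInf {e : ℕ | ∃ G : SimpleGraph (Fin n), Good G d k ∧ G.edgeSet.ncard = e}

/-- The edge excess. -/
noncomputable def phihat (n d k : ℕ) : ℝ := (fhat n d k : ℝ) - (k : ℝ) * (n : ℝ) / 2

/-! Walks -/

lemma walk_of_induce {V : Type} (G : SimpleGraph V) (s : Set V) {a b : s}
    (p : (G.induce s).Walk a b) :
    ∃ q : G.Walk a.1 b.1, q.length = p.length ∧ ∀ z ∈ q.support, z ∈ s := by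
  induction p with
  | nil => exact ⟨SimpleGraph.Walk.nil, rfl, by simp⟩
  | cons h p ih =>
    obtain ⟨q, hq, hq2⟩ := ih
    refine ⟨SimpleGraph.Walk.cons (by simpa using h) q, by simp [hq], ?_⟩
    intro z hz
    rw [SimpleGraph.Walk.support_cons, List.mem_cons] at hz
    rcases hz with rfl | hz
    · exact Subtype.coe_prop _
    · exact hq2 z hz

lemma walk_to_induce {V : Type} (G : SimpleGraph V) (s : Set V) {a b : V}
    (p : G.Walk a b) (ha : a ∈ s) (hb : b ∈ s) (hp : ∀ z ∈ p.support, z ∈ s) :
    ∃ q : (G.induce s).Walk ⟨a, ha⟩ ⟨b, hb⟩, q.length = p.length := by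
  induction p with
  | nil => exact ⟨SimpleGraph.Walk.nil, rfl⟩
  | @cons u v w h p ih =>
    have hv : v ∈ s := hp v (by simp)
    obtain ⟨q, hq⟩ := ih hv hb (fun z hz => hp z (by simp [hz]))
    exact ⟨SimpleGraph.Walk.cons (by simpa using h) q, by simp [hq]⟩

lemma good_iff {V : Type} (G : SimpleGraph V) (d k : ℕ) :
    Good G d k ↔ ∀ S : Finset V, S.card = k - 1 → ∀ x y, x ∉ S → y ∉ S →
      ∃ p : G.Walk x y, p.length ≤ d ∧ ∀ z ∈ p.support, z ∉ S := by
  constructor
  · intro h S hS x y hx hy
    have h1 := h S hS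
    have h2 : (G.induce {v | v ∉ S}).edist ⟨x, hx⟩ ⟨y, hy⟩ ≤ (d : ℕ∞) :=
      le_trans SimpleGraph.edist_le_ediam h1
    have h3 : (G.induce {v | v ∉ S}).edist ⟨x, hx⟩ ⟨y, hy⟩ ≠ ⊤ :=
      ne_of_lt (lt_of_le_of_lt h2 (ENat.natCast_lt_top d))
    obtain ⟨p, hp⟩ := SimpleGraph.exists_walk_of_edist_ne_top h3
    obtain ⟨q, hq, hq2⟩ := walk_of_induce G _ p
    refine ⟨q, ?_, fun z hz => hq2 z hz⟩
    rw [hq]
    have : (p.length : ℕ∞) ≤ (d : ℕ∞) := by rw [hp]; exact h2
    exact_mod_cast this
  · intro h S hS
    rw [SimpleGraph.ediam_le_iff]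
    rintro ⟨x, hx⟩ ⟨y, hy⟩
    obtain ⟨p, hp, hp2⟩ := h S hS x y hx hy
    obtain ⟨q, hq⟩ := walk_to_induce G {v | v ∉ S} p hx hy (fun z hz => hp2 z hz)
    refine le_trans (SimpleGraph.edist_le q) ?_
    rw [hq]
    exact_mod_cast hp

lemma good_walk {V : Type} [Fintype V] [DecidableEq V] (G : SimpleGraph V) (d k : ℕ)
    (hk : 1 ≤ k) (hn : k + 1 ≤ Fintype.card V) (hG : Good G d k) (T : Finset V)
    (hT : T.card ≤ k - 1) (x y : V) (hx : x ∉ T) (hy : y ∉ T) :
    ∃ p : G.Walk x y, p.length ≤ d ∧ ∀ z ∈ p.support, z ∉ T := by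
  have h1 : T ⊆ (Finset.univ \ {x, y}) := by
    intro t ht
    simp only [Finset.mem_sdiff, Finset.mem_univ, true_and, Finset.mem_insert,
      Finset.mem_singleton, not_or]
    constructor
    · rintro rfl; exact hx ht
    · rintro rfl; exact hy ht
  have h2 : k - 1 ≤ (Finset.univ \ {x, y} : Finset V).card := by
    have := Finset.le_card_sdiff ({x, y} : Finset V) Finset.univ
    have h3 : ({x, y} : Finset V).card ≤ 2 := Finset.card_le_two
    have h4 : (Finset.univ : Finset V).card = Fintype.card V := rfl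
    omega
  obtain ⟨S, hS1, hS2, hS3⟩ := Finset.exists_subsuperset_card_eq h1 hT h2
  have hx' : x ∉ S := fun h => by simpa using hS2 h
  have hy' : y ∉ S := fun h => by simpa using hS2 h
  obtain ⟨p, hp, hp2⟩ := (good_iff G d k).1 hG S hS3 x y hx' hy'
  exact ⟨p, hp, fun z hz hzT => hp2 z hz (hS1 hzT)⟩

/-- The graph G with all edges meeting X removed. -/
def off {V : Type} (G : SimpleGraph V) (X : Finset V) : SimpleGraph V where
  Adj u v := G.Adj u v ∧ u ∉ X ∧ v ∉ X
  symm := ⟨fun _ _ h => ⟨h.1.symm, h.2.2, h.2.1⟩⟩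
  loopless := ⟨fun _ h => G.loopless.irrefl _ h.1⟩

lemma first_hub {V : Type} [DecidableEq V] (G : SimpleGraph V) (H T : Finset V) {x y : V}
    (p : G.Walk x y) (hxH : x ∉ H) (hyH : y ∉ H) (hp : ∀ z ∈ p.support, z ∉ T) :
    (∃ q : (off G H).Walk x y, q.length = p.length) ∨
    ∃ v h, ∃ q : (off G (H ∪ T)).Walk x v, ∃ q2 : G.Walk h y,
      G.Adj v h ∧ h ∈ H ∧ h ∉ T ∧ q.length + 1 + q2.length = p.length := by
  induction p with
  | nil => exact Or.inl ⟨SimpleGraph.Walk.nil, rfl⟩
  | @cons u v w h p ih =>
    by_cases hv : v ∈ H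
    · right
      exact ⟨u, v, SimpleGraph.Walk.nil, p, h, hv, hp v (by simp), by simp; omega⟩
    · have hu : u ∉ T := hp u (by simp)
      have hvT : v ∉ T := hp v (by simp)
      rcases ih hv hyH (fun z hz => hp z (by simp [hz])) with ⟨q, hq⟩ | ⟨v', h', q, q2, h1, h2, h3, h4⟩
      · left
        have hadj : (off G H).Adj u v := ⟨h, hxH, hv⟩
        exact ⟨SimpleGraph.Walk.cons hadj q, by simp [hq]⟩
      · right
        have hadj : (off G (H ∪ T)).Adj u v := ⟨h, by simp [hxH, hu], by simp [hv, hvT]⟩
        refine ⟨v', h', SimpleGraph.Walk.cons hadj q, q2, h1, h2, h3, ?_⟩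
        simp only [SimpleGraph.Walk.length_cons]; omega

open scoped Classical in
/-- Vertices reached from x by walks of length at most i in a graph of bounded degree. -/
lemma ball_card {V : Type} [Fintype V] (G : SimpleGraph V) (D : ℕ)
    (hD : ∀ v, (Finset.univ.filter (fun u => G.Adj v u)).card ≤ D) (i : ℕ) (x : V) :
    (Finset.univ.filter (fun y => ∃ q : G.Walk x y, q.length ≤ i)).card ≤ (D + 1) ^ i := by
  induction i generalizing x with
  | zero =>
    have : (Finset.univ.filter (fun y => ∃ q : G.Walk x y, q.length ≤ 0)) ⊆ {x} := by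
      intro y hy
      simp only [Finset.mem_filter, Finset.mem_univ, true_and] at hy
      obtain ⟨q, hq⟩ := hy
      have := SimpleGraph.Walk.eq_of_length_eq_zero (Nat.le_zero.1 hq)
      simp [this]
    exact le_trans (Finset.card_le_card this) (by simp)
  | succ i ih =>
    have hsub : (Finset.univ.filter (fun y => ∃ q : G.Walk x y, q.length ≤ i + 1)) ⊆
        {x} ∪ (Finset.univ.filter (fun u => G.Adj x u)).biUnion
          (fun v => Finset.univ.filter (fun y => ∃ q : G.Walk v y, q.length ≤ i)) := by
      intro y hy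
      simp only [Finset.mem_filter, Finset.mem_univ, true_and] at hy
      obtain ⟨q, hq⟩ := hy
      cases q with
      | nil => simp
      | @cons _ v _ h q =>
        simp only [Finset.mem_union, Finset.mem_biUnion, Finset.mem_filter, Finset.mem_univ,
          true_and]
        right
        refine ⟨v, h, q, ?_⟩
        simp only [SimpleGraph.Walk.length_cons] at hq
        omega
    refine le_trans (Finset.card_le_card hsub) (le_trans (Finset.card_union_le _ _) ?_)
    have h2 : ((Finset.univ.filter (fun u => G.Adj x u)).biUnion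
          (fun v => Finset.univ.filter (fun y => ∃ q : G.Walk v y, q.length ≤ i))).card ≤
          D * (D + 1) ^ i := by
      refine le_trans Finset.card_biUnion_le ?_
      refine le_trans (Finset.sum_le_card_nsmul _ _ ((D + 1) ^ i) (fun v _ => ih v)) ?_
      rw [smul_eq_mul]
      exact Nat.mul_le_mul_right _ (hD x)
    have h3 : 1 ≤ (D + 1) ^ i := Nat.one_le_pow _ _ (Nat.succ_pos _)
    rw [Finset.card_singleton, pow_succ]
    nlinarith

/-- Set-pair lemma. -/
lemma set_pair {V : Type} [DecidableEq V] (c w : ℕ) (W C : V → Finset V) :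
    ∀ (a : ℕ) (A : V → Finset V) (B : Finset V), (∀ x ∈ B, (W x).card ≤ w) →
      (∀ x ∈ B, (C x).card ≤ c) → (∀ x ∈ B, (A x).card ≤ a) →
      (∀ x ∈ B, Disjoint (A x) (W x)) →
      (∀ x ∈ B, ∀ y ∈ B, y ∉ C x → ¬ Disjoint (A y) (W x)) →
      B.card ≤ c * (w + 1) ^ a := by
  intro a
  induction a with
  | zero =>
    intro A B hW hC h1 h2 h3
    rcases B.eq_empty_or_nonempty with rfl | ⟨x, hx⟩
    · simp
    · have : B ⊆ C x := by
        intro y hy
        by_contra hyC
        apply h3 x hx y hy hyC
        have := h1 y hy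
        rw [Finset.card_eq_zero.1 (Nat.le_zero.1 this)]
        simp
      have := Finset.card_le_card this
      have := hC x hx
      simpa using by omega
  | succ a ih =>
    intro A B hW hC h1 h2 h3
    rcases B.eq_empty_or_nonempty with rfl | ⟨x, hx⟩
    · simp
    · have hsub : B ⊆ C x ∪ (W x).biUnion (fun h => B.filter (fun y => h ∈ A y)) := by
        intro y hy
        by_cases hyC : y ∈ C x
        · simp [hyC]
        · have := h3 x hx y hy hyC
          rw [Finset.not_disjoint_iff] at this
          obtain ⟨h, hh1, hh2⟩ := this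
          simp only [Finset.mem_union, Finset.mem_biUnion, Finset.mem_filter]
          right
          exact ⟨h, hh2, hy, hh1⟩
      have hcl : ∀ h, (B.filter (fun y => h ∈ A y)).card ≤ c * (w + 1) ^ a := by
        intro h
        apply ih (fun y => (A y).erase h)
        · intro y hy; exact hW y (Finset.mem_filter.1 hy).1
        · intro y hy; exact hC y (Finset.mem_filter.1 hy).1
        · intro y hy
          rw [Finset.mem_filter] at hy
          have := h1 y hy.1
          rw [Finset.card_erase_of_mem hy.2]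
          omega
        · intro y hy
          rw [Finset.mem_filter] at hy
          exact Finset.disjoint_of_subset_left (Finset.erase_subset _ _) (h2 y hy.1)
        · intro y hy z hz hzC
          rw [Finset.mem_filter] at hy hz
          have := h3 y hy.1 z hz.1 hzC
          rw [Finset.not_disjoint_iff] at this ⊢
          obtain ⟨g, hg1, hg2⟩ := this
          refine ⟨g, ?_, hg2⟩
          rw [Finset.mem_erase]
          refine ⟨?_, hg1⟩
          rintro rfl
          exact (Finset.disjoint_left.1 (h2 y hy.1)) hy.2 hg2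
      refine le_trans (Finset.card_le_card hsub) (le_trans (Finset.card_union_le _ _) ?_)
      have h4 : ((W x).biUnion (fun h => B.filter (fun y => h ∈ A y))).card ≤
          w * (c * (w + 1) ^ a) := by
        refine le_trans Finset.card_biUnion_le ?_
        refine le_trans (Finset.sum_le_card_nsmul _ _ (c * (w + 1) ^ a) (fun v _ => hcl v)) ?_
        rw [smul_eq_mul]
        exact Nat.mul_le_mul_right _ (hW x hx)
      have h5 := hC x hx
      have h6 : 1 ≤ (w + 1) ^ a := Nat.one_le_pow _ _ (Nat.succ_pos _)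
      have h7 : c ≤ c * (w + 1) ^ a := Nat.le_mul_of_pos_right _ h6
      rw [pow_succ]
      nlinarith

/-- From x one reaches a hub outside T in at most r steps, avoiding T. -/
def Conn {V : Type} [DecidableEq V] (G : SimpleGraph V) (H T : Finset V) (r : ℕ) (x : V) : Prop :=
  ∃ v h, ∃ q : (off G (H ∪ T)).Walk x v, G.Adj v h ∧ h ∈ H ∧ h ∉ T ∧ q.length + 1 ≤ r

lemma off_walk_end {V : Type} (G : SimpleGraph V) (X : Finset V) {x v : V}
    (q : (off G X).Walk x v) (hx : x ∉ X) : v ∉ X := by
  induction q with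
  | nil => exact hx
  | cons h q ih => exact ih h.2.2

open scoped Classical in
lemma off_deg {V : Type} [Fintype V] (G : SimpleGraph V) (H X : Finset V) (D : ℕ)
    (hD : ∀ v, v ∉ H → (Finset.univ.filter (fun u => G.Adj v u)).card ≤ D) (hHX : H ⊆ X) (v : V) :
    (Finset.univ.filter (fun u => (off G X).Adj v u)).card ≤ D := by
  by_cases hv : v ∈ X
  · have : (Finset.univ.filter (fun u => (off G X).Adj v u)) = ∅ := by
      apply Finset.filter_eq_empty_iff.2
      intro u _ h
      exact h.2.1 hv
    rw [this]; simp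
  · refine le_trans (Finset.card_le_card ?_) (hD v (fun h => hv (hHX h)))
    intro u hu
    simp only [Finset.mem_filter, Finset.mem_univ, true_and] at hu ⊢
    exact hu.1

open scoped Classical in
lemma bad_card {V : Type} [Fintype V] [DecidableEq V] (G : SimpleGraph V) (r k D : ℕ) (hr : 1 ≤ r)
    (hk : 1 ≤ k) (hn : k + 1 ≤ Fintype.card V) (hG : Good G (r + 2) k) (H : Finset V)
    (hD : ∀ v, v ∉ H → (Finset.univ.filter (fun u => G.Adj v u)).card ≤ D)
    (B : Finset V)
    (hB : ∀ x ∈ B, x ∉ H ∧ ∃ T : Finset V, T.card ≤ k - 1 ∧ x ∉ T ∧ ¬ Conn G H T r x) :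
    B.card ≤ ((D + 1) ^ (r + 2) + k) * ((D + 1) ^ r * D + 1) ^ (k - 1) := by
  have hB1 : ∀ x ∈ B, x ∉ H := fun x hx => (hB x hx).1
  choose! T hT1 hT2 hT3 using (fun x hx => (hB x hx).2)
  let W : V → Finset V := fun x => Finset.univ.filter (fun h => h ∈ H ∧ h ∉ T x ∧
    ∃ v, ∃ q : (off G (H ∪ T x)).Walk x v, q.length ≤ r ∧ G.Adj v h)
  let C : V → Finset V := fun x =>
    (Finset.univ.filter (fun y => ∃ q : (off G H).Walk x y, q.length ≤ r + 2)) ∪ T x
  have hAT : ∀ x ∈ B, H.filter (fun h => G.Adj x h) ⊆ T x := by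
    intro x hx h hh
    rw [Finset.mem_filter] at hh
    by_contra hhT
    exact hT3 x hx ⟨x, h, SimpleGraph.Walk.nil, hh.2, hh.1, hhT, by simpa using hr⟩
  refine set_pair _ _ W C (k - 1) (fun x => H.filter (fun h => G.Adj x h)) B ?_ ?_ ?_ ?_ ?_
  · intro x hx
    have hsub : W x ⊆ (Finset.univ.filter (fun v => ∃ q : (off G (H ∪ T x)).Walk x v,
        q.length ≤ r)).biUnion (fun v => if v ∈ H then ∅ else
          Finset.univ.filter (fun u => G.Adj v u)) := by
      intro h hh
      simp only [W, Finset.mem_filter, Finset.mem_univ, true_and] at hh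
      obtain ⟨hh1, hh2, v, q, hq, hvh⟩ := hh
      simp only [Finset.mem_biUnion, Finset.mem_filter, Finset.mem_univ, true_and]
      refine ⟨v, ⟨q, hq⟩, ?_⟩
      have hv : v ∉ H ∪ T x := off_walk_end G _ q (by simp [hB1 x hx, hT2 x hx])
      have hv' : v ∉ H := fun h' => hv (Finset.mem_union_left _ h')
      simp [hv', hvh]
    refine le_trans (Finset.card_le_card hsub) (le_trans Finset.card_biUnion_le ?_)
    refine le_trans (Finset.sum_le_card_nsmul _ _ D ?_) ?_
    · intro v _
      split_ifs with hv
      · simp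
      · exact hD v hv
    · rw [smul_eq_mul]
      exact Nat.mul_le_mul_right _ (ball_card _ D
        (off_deg G H _ D hD Finset.subset_union_left) r x)
  · intro x hx
    refine le_trans (Finset.card_union_le _ _) ?_
    have h1 := ball_card (off G H) D (off_deg G H H D hD (Finset.Subset.refl _)) (r + 2) x
    have h2 := hT1 x hx
    omega
  · intro x hx
    exact le_trans (Finset.card_le_card (hAT x hx)) (hT1 x hx)
  · intro x hx
    rw [Finset.disjoint_left]
    intro h hh1 hh2
    simp only [W, Finset.mem_filter, Finset.mem_univ, true_and] at hh2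
    exact hh2.2.1 (hAT x hx hh1)
  · intro x hx y hy hyC
    simp only [C, Finset.mem_union, Finset.mem_filter, Finset.mem_univ, true_and, not_or] at hyC
    obtain ⟨p, hp, hp2⟩ := good_walk G (r + 2) k hk hn hG (T x) (hT1 x hx) x y (hT2 x hx) hyC.2
    rcases first_hub G H (T x) p (hB1 x hx) (hB1 y hy) hp2 with ⟨q, hq⟩ |
      ⟨v, h, q, q2, h1, h2, h3, h4⟩
    · exact absurd ⟨q, by omega⟩ hyC.1
    · have h5 : ¬ (q.length + 1 ≤ r) := fun h5 => hT3 x hx ⟨v, h, q, h1, h2, h3, h5⟩
      have h6 : q2.length ≠ 0 := by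
        intro h6
        have := SimpleGraph.Walk.eq_of_length_eq_zero h6
        subst this
        exact hB1 _ hy h2
      have h7 : q2.length = 1 := by omega
      have h8 : G.Adj h y := SimpleGraph.Walk.adj_of_length_eq_one h7
      rw [Finset.not_disjoint_iff]
      refine ⟨h, ?_, ?_⟩
      · rw [Finset.mem_filter]; exact ⟨h2, h8.symm⟩
      · simp only [W, Finset.mem_filter, Finset.mem_univ, true_and]
        exact ⟨h2, h3, v, q, by omega, h1⟩

open scoped Classical in
lemma two_e {V : Type} [Fintype V] (G : SimpleGraph V) :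
    2 * G.edgeSet.ncard = ∑ x : V, (Finset.univ.filter (fun u => G.Adj x u)).card := by
  have h1 := G.sum_degrees_eq_twice_card_edges
  rw [Set.ncard_eq_toFinset_card' G.edgeSet]
  have h2 : G.edgeSet.toFinset = G.edgeFinset := rfl
  rw [h2, ← h1]
  apply Finset.sum_congr rfl
  intro x _
  rw [← SimpleGraph.card_neighborFinset_eq_degree, SimpleGraph.neighborFinset_eq_filter]

open scoped Classical in
lemma edges_ge {V : Type} [Fintype V] [DecidableEq V] (G : SimpleGraph V) (H : Finset V) :
    ∑ x ∈ Finset.univ \ H, ((Finset.univ.filter (fun u => G.Adj x u)).card +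
      (H.filter (fun u => G.Adj x u)).card) ≤ 2 * G.edgeSet.ncard := by
  rw [two_e, Finset.sum_add_distrib, ← Finset.sum_sdiff (Finset.subset_univ H)]
  apply Nat.add_le_add_left
  have h1 : ∑ x ∈ Finset.univ \ H, (H.filter (fun u => G.Adj x u)).card =
      ∑ h ∈ H, ((Finset.univ \ H).filter (fun x => G.Adj x h)).card :=
    Finset.sum_card_bipartiteAbove_eq_sum_card_bipartiteBelow (fun x h => G.Adj x h)
  rw [h1]
  apply Finset.sum_le_sum
  intro h _
  apply Finset.card_le_card
  intro x hx
  rw [Finset.mem_filter] at hx ⊢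
  exact ⟨Finset.mem_univ _, hx.2.symm⟩

open scoped Classical in
lemma hubs_card {V : Type} [Fintype V] (G : SimpleGraph V) (D : ℕ) :
    D * (Finset.univ.filter (fun v => D < (Finset.univ.filter (fun u => G.Adj v u)).card)).card ≤
      2 * G.edgeSet.ncard := by
  rw [two_e, mul_comm]
  refine le_trans ?_ (Finset.sum_le_sum_of_subset (Finset.filter_subset
    (fun v => D < (Finset.univ.filter (fun u => G.Adj v u)).card) Finset.univ))
  rw [← smul_eq_mul]
  apply Finset.card_nsmul_le_sum
  intro v hv
  exact (Finset.mem_filter.1 hv).2.le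

open scoped Classical in
lemma lower_three (k D : ℕ) (hk : 1 ≤ k) : ∃ M : ℕ, ∀ (n : ℕ), k + 1 ≤ n →
    ∀ G : SimpleGraph (Fin n), Good G 3 k →
      k * D * n ≤ G.edgeSet.ncard * (D + 2 * k) + M := by
  refine ⟨k * D * (((D + 1) ^ (1 + 2) + k) * ((D + 1) ^ 1 * D + 1) ^ (k - 1)), ?_⟩
  intro n hn G hG
  set M0 := ((D + 1) ^ (1 + 2) + k) * ((D + 1) ^ 1 * D + 1) ^ (k - 1) with hM0
  set H : Finset (Fin n) :=
    Finset.univ.filter (fun v => D < (Finset.univ.filter (fun u => G.Adj v u)).card) with hH
  set B : Finset (Fin n) := Finset.univ.filter (fun x => x ∉ H ∧ ∃ T : Finset (Fin n),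
    T.card ≤ k - 1 ∧ x ∉ T ∧ ¬ Conn G H T 1 x) with hB
  have hBc : B.card ≤ M0 := by
    apply bad_card G 1 k D le_rfl hk (by simpa using hn) hG H
    · intro v hv
      simp only [hH, Finset.mem_filter, Finset.mem_univ, true_and, not_lt] at hv
      exact hv
    · intro x hx
      exact (Finset.mem_filter.1 hx).2
  have hα : ∀ x ∈ (Finset.univ \ H) \ B, k ≤ (H.filter (fun u => G.Adj x u)).card := by
    intro x hx
    rw [Finset.mem_sdiff, Finset.mem_sdiff] at hx
    by_contra hlt
    push Not at hlt
    apply hx.2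
    rw [hB, Finset.mem_filter]
    refine ⟨Finset.mem_univ _, hx.1.2, H.filter (fun u => G.Adj x u), by omega, ?_, ?_⟩
    · intro h
      exact G.loopless.irrefl _ (Finset.mem_filter.1 h).2
    · rintro ⟨v, h, q, h1, h2, h3, h4⟩
      have : q.length = 0 := by omega
      have := SimpleGraph.Walk.eq_of_length_eq_zero this
      subst this
      exact h3 (Finset.mem_filter.2 ⟨h2, h1⟩)
  have h1 := edges_ge G H
  have h2 := hubs_card G D
  rw [← hH] at h2
  have h3 : 2 * k * ((Finset.univ \ H) \ B).card ≤ 2 * G.edgeSet.ncard := by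
    refine le_trans ?_ h1
    refine le_trans ?_ (Finset.sum_le_sum_of_subset (Finset.sdiff_subset (t := B)))
    rw [mul_comm, ← smul_eq_mul]
    apply Finset.card_nsmul_le_sum
    intro x hx
    have h4 := hα x hx
    have h5 : (H.filter (fun u => G.Adj x u)).card ≤
        (Finset.univ.filter (fun u => G.Adj x u)).card :=
      Finset.card_le_card (Finset.filter_subset_filter _ (Finset.subset_univ _))
    omega
  have h4 : n ≤ ((Finset.univ \ H) \ B).card + H.card + B.card := by
    have h5 := Finset.le_card_sdiff B (Finset.univ \ H)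
    have h6 := Finset.le_card_sdiff H (Finset.univ : Finset (Fin n))
    have h7 : (Finset.univ : Finset (Fin n)).card = n := by simp
    omega
  have h5 : k * ((Finset.univ \ H) \ B).card ≤ G.edgeSet.ncard := by
    have : 2 * (k * ((Finset.univ \ H) \ B).card) ≤ 2 * G.edgeSet.ncard := by
      rw [← mul_assoc]; exact h3
    omega
  calc k * D * n ≤ k * D * (((Finset.univ \ H) \ B).card + H.card + B.card) :=
        Nat.mul_le_mul_left _ h4
    _ = D * (k * ((Finset.univ \ H) \ B).card) + k * (D * H.card) + k * D * B.card := by ring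
    _ ≤ D * G.edgeSet.ncard + k * (2 * G.edgeSet.ncard) + k * D * M0 :=
        Nat.add_le_add (Nat.add_le_add (Nat.mul_le_mul_left _ h5) (Nat.mul_le_mul_left _ h2))
          (Nat.mul_le_mul_left _ hBc)
    _ = G.edgeSet.ncard * (D + 2 * k) + k * D * M0 := by ring

open scoped Classical in
lemma lower_four (k D : ℕ) (hk : 1 ≤ k) : ∃ M : ℕ, ∀ (n : ℕ), k + 1 ≤ n →
    ∀ G : SimpleGraph (Fin n), Good G 4 k →
      (k + 1) * D * n ≤ 2 * (G.edgeSet.ncard * (D + (k + 1))) + M := by
  refine ⟨((k + 1) * D + D * D) *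
    (((D + 1) ^ (2 + 2) + k) * ((D + 1) ^ 2 * D + 1) ^ (k - 1)), ?_⟩
  intro n hn G hG
  set M0 := ((D + 1) ^ (2 + 2) + k) * ((D + 1) ^ 2 * D + 1) ^ (k - 1) with hM0
  set H : Finset (Fin n) :=
    Finset.univ.filter (fun v => D < (Finset.univ.filter (fun u => G.Adj v u)).card) with hH
  set B : Finset (Fin n) := Finset.univ.filter (fun x => x ∉ H ∧ ∃ T : Finset (Fin n),
    T.card ≤ k - 1 ∧ x ∉ T ∧ ¬ Conn G H T 2 x) with hB
  have hBc : B.card ≤ M0 := by
    apply bad_card G 2 k D (by norm_num) hk (by simpa using hn) hG H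
    · intro v hv
      simp only [hH, Finset.mem_filter, Finset.mem_univ, true_and, not_lt] at hv
      exact hv
    · intro x hx
      exact (Finset.mem_filter.1 hx).2
  -- alpha, the number of hub neighbours, and the two kinds of low neighbours
  let α : Fin n → ℕ := fun x => (H.filter (fun u => G.Adj x u)).card
  let N1 : Fin n → Finset (Fin n) := fun x =>
    (Finset.univ \ H).filter (fun u => G.Adj x u ∧ 0 < α u)
  let N0 : Fin n → Finset (Fin n) := fun x =>
    (Finset.univ \ H).filter (fun u => G.Adj x u ∧ α u = 0)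
  have hdeg : ∀ x, α x + (N1 x).card + (N0 x).card ≤
      (Finset.univ.filter (fun u => G.Adj x u)).card := by
    intro x
    have hd1 : Disjoint (N1 x) (N0 x) := by
      rw [Finset.disjoint_left]
      intro u h1 h2
      have h1' := (Finset.mem_filter.1 h1).2.2
      have h2' := (Finset.mem_filter.1 h2).2.2
      omega
    have hd2 : Disjoint (H.filter (fun u => G.Adj x u)) (N1 x ∪ N0 x) := by
      rw [Finset.disjoint_left]
      intro u h1 h2
      have h1' := (Finset.mem_filter.1 h1).1
      rcases Finset.mem_union.1 h2 with h2 | h2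
      · exact (Finset.mem_sdiff.1 (Finset.mem_filter.1 h2).1).2 h1'
      · exact (Finset.mem_sdiff.1 (Finset.mem_filter.1 h2).1).2 h1'
    have h3 : α x + (N1 x).card + (N0 x).card =
        ((H.filter (fun u => G.Adj x u)) ∪ (N1 x ∪ N0 x)).card := by
      rw [Finset.card_union_of_disjoint hd2, Finset.card_union_of_disjoint hd1]
      simp only [α]; ring
    rw [h3]
    apply Finset.card_le_card
    intro u hu
    rw [Finset.mem_filter]
    refine ⟨Finset.mem_univ _, ?_⟩
    rcases Finset.mem_union.1 hu with hu | hu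
    · exact (Finset.mem_filter.1 hu).2
    · rcases Finset.mem_union.1 hu with hu | hu
      · exact (Finset.mem_filter.1 hu).2.1
      · exact (Finset.mem_filter.1 hu).2.1
  have hk1 : ∀ x ∈ (Finset.univ \ H) \ B, k ≤ α x + (N1 x).card := by
    intro x hx
    rw [Finset.mem_sdiff, Finset.mem_sdiff] at hx
    by_contra hlt
    push Not at hlt
    apply hx.2
    rw [hB, Finset.mem_filter]
    refine ⟨Finset.mem_univ _, hx.1.2, H.filter (fun u => G.Adj x u) ∪ N1 x, ?_, ?_, ?_⟩
    · have := Finset.card_union_le (H.filter (fun u => G.Adj x u)) (N1 x)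
      simp only [α] at hlt
      omega
    · intro h
      rcases Finset.mem_union.1 h with h | h
      · exact G.loopless.irrefl _ (Finset.mem_filter.1 h).2
      · exact G.loopless.irrefl _ (Finset.mem_filter.1 h).2.1
    · rintro ⟨v, h, q, h1, h2, h3, h4⟩
      cases q with
      | nil =>
        exact h3 (Finset.mem_union_left _ (Finset.mem_filter.2 ⟨h2, h1⟩))
      | @cons _ w _ hxw q =>
        have : q.length = 0 := by
          simp only [SimpleGraph.Walk.length_cons] at h4
          omega
        have := SimpleGraph.Walk.eq_of_length_eq_zero this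
        subst this
        have h5 := hxw.2.2
        apply h5
        have h6 : w ∉ H := fun h' => h5 (Finset.mem_union_left _ h')
        apply Finset.mem_union_right
        apply Finset.mem_union_right
        refine Finset.mem_filter.2 ⟨Finset.mem_sdiff.2 ⟨Finset.mem_univ _, h6⟩, hxw.1, ?_⟩
        exact Finset.card_pos.2 ⟨h, Finset.mem_filter.2 ⟨h2, h1⟩⟩
  set L := (Finset.univ \ H) \ B with hL
  have h1 := edges_ge G H
  have h2 := hubs_card G D
  rw [← hH] at h2
  -- discharging
  have hdis : L.card ≤ ∑ x ∈ L, (α x + (N0 x).card) + D * B.card := by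
    set X0 := L.filter (fun x => α x = 0) with hX0
    set X1 := L.filter (fun x => ¬ α x = 0) with hX1
    have e1 : X0.card + X1.card = L.card := Finset.card_filter_add_card_filter_not _
    have e2 : X1.card ≤ ∑ x ∈ L, α x := by
      refine le_trans ?_ (Finset.sum_le_sum_of_subset (Finset.filter_subset (fun x => ¬ α x = 0) L))
      rw [Finset.card_eq_sum_ones]
      apply Finset.sum_le_sum
      intro x hx
      exact Nat.one_le_iff_ne_zero.2 (Finset.mem_filter.1 hx).2
    have e3 : X0.card ≤ ∑ x ∈ L, (N0 x).card + D * B.card := by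
      have e4 : ∀ y ∈ X0, 1 ≤ (L.filter (fun x => G.Adj x y)).card +
          (B.filter (fun x => G.Adj x y)).card := by
        intro y hy
        rw [hX0, Finset.mem_filter] at hy
        have := hk1 y hy.1
        rw [hy.2, zero_add] at this
        obtain ⟨u, hu⟩ := Finset.card_pos.1 (lt_of_lt_of_le (by omega) this)
        have hu' := Finset.mem_filter.1 hu
        by_cases huB : u ∈ B
        · have : 0 < (B.filter (fun x => G.Adj x y)).card :=
            Finset.card_pos.2 ⟨u, Finset.mem_filter.2 ⟨huB, hu'.2.1.symm⟩⟩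
          omega
        · have : 0 < (L.filter (fun x => G.Adj x y)).card :=
            Finset.card_pos.2 ⟨u, Finset.mem_filter.2
              ⟨Finset.mem_sdiff.2 ⟨hu'.1, huB⟩, hu'.2.1.symm⟩⟩
          omega
      have e5 : X0.card ≤ ∑ y ∈ X0, ((L.filter (fun x => G.Adj x y)).card +
          (B.filter (fun x => G.Adj x y)).card) := by
        rw [Finset.card_eq_sum_ones]
        exact Finset.sum_le_sum e4
      rw [Finset.sum_add_distrib] at e5
      have e6 : ∑ y ∈ X0, (L.filter (fun x => G.Adj x y)).card =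
          ∑ x ∈ L, (X0.filter (fun y => G.Adj x y)).card :=
        (Finset.sum_card_bipartiteAbove_eq_sum_card_bipartiteBelow
          (fun x y => G.Adj x y)).symm
      have e7 : ∑ y ∈ X0, (B.filter (fun x => G.Adj x y)).card =
          ∑ x ∈ B, (X0.filter (fun y => G.Adj x y)).card :=
        (Finset.sum_card_bipartiteAbove_eq_sum_card_bipartiteBelow
          (fun x y => G.Adj x y)).symm
      have e8 : ∑ x ∈ L, (X0.filter (fun y => G.Adj x y)).card ≤ ∑ x ∈ L, (N0 x).card := by
        apply Finset.sum_le_sum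
        intro x _
        apply Finset.card_le_card
        intro y hy
        rw [Finset.mem_filter] at hy
        have hy0 := Finset.mem_filter.1 hy.1
        exact Finset.mem_filter.2 ⟨(Finset.mem_sdiff.1 hy0.1).1, hy.2, hy0.2⟩
      have e9 : ∑ x ∈ B, (X0.filter (fun y => G.Adj x y)).card ≤ D * B.card := by
        rw [mul_comm, ← smul_eq_mul]
        apply Finset.sum_le_card_nsmul
        intro x hx
        have hxH : x ∉ H := (Finset.mem_filter.1 hx).2.1
        simp only [hH, Finset.mem_filter, Finset.mem_univ, true_and, not_lt] at hxH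
        exact le_trans (Finset.card_le_card (Finset.filter_subset_filter _
          (Finset.subset_univ _))) hxH
      omega
    rw [Finset.sum_add_distrib]
    omega
  have h3 : (k + 1) * L.card ≤ 2 * G.edgeSet.ncard + D * B.card := by
    have h4 : ∑ x ∈ L, (k + (α x + (N0 x).card)) ≤ 2 * G.edgeSet.ncard := by
      refine le_trans ?_ h1
      refine le_trans ?_ (Finset.sum_le_sum_of_subset (Finset.sdiff_subset (t := B)))
      rw [← hL]
      apply Finset.sum_le_sum
      intro x hx
      have h5 := hdeg x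
      have h6 := hk1 x hx
      simp only [α] at h5 h6 ⊢
      omega
    rw [Finset.sum_add_distrib, Finset.sum_const, smul_eq_mul] at h4
    have : (k + 1) * L.card = L.card * k + L.card := by ring
    omega
  have h4 : n ≤ L.card + H.card + B.card := by
    have h5 := Finset.le_card_sdiff B (Finset.univ \ H)
    rw [← hL] at h5
    have h6 := Finset.le_card_sdiff H (Finset.univ : Finset (Fin n))
    have h7 : (Finset.univ : Finset (Fin n)).card = n := by simp
    omega
  calc (k + 1) * D * n ≤ (k + 1) * D * (L.card + H.card + B.card) :=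
        Nat.mul_le_mul_left _ h4
    _ = D * ((k + 1) * L.card) + (k + 1) * (D * H.card) + (k + 1) * D * B.card := by ring
    _ ≤ D * (2 * G.edgeSet.ncard + D * B.card) + (k + 1) * (2 * G.edgeSet.ncard) +
          (k + 1) * D * B.card :=
        Nat.add_le_add_right (Nat.add_le_add (Nat.mul_le_mul_left _ h3)
          (Nat.mul_le_mul_left _ h2)) _
    _ = 2 * (G.edgeSet.ncard * (D + (k + 1))) + ((k + 1) * D + D * D) * B.card := by ring
    _ ≤ 2 * (G.edgeSet.ncard * (D + (k + 1))) + ((k + 1) * D + D * D) * M0 :=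
        Nat.add_le_add_left (Nat.mul_le_mul_left _ hBc) _

/-! Constructions -/

/-- x and y are joined by a walk of length at most m avoiding S. -/
def Reach {V : Type} (G : SimpleGraph V) (S : Finset V) (m : ℕ) (x y : V) : Prop :=
  ∃ p : G.Walk x y, p.length ≤ m ∧ ∀ z ∈ p.support, z ∉ S

lemma reach_trans {V : Type} {G : SimpleGraph V} {S : Finset V} {m m' : ℕ} {x y z : V}
    (h1 : Reach G S m x y) (h2 : Reach G S m' y z) : Reach G S (m + m') x z := by
  obtain ⟨p, hp, hp2⟩ := h1
  obtain ⟨q, hq, hq2⟩ := h2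
  refine ⟨p.append q, ?_, ?_⟩
  · rw [SimpleGraph.Walk.length_append]; omega
  · intro w hw
    rw [SimpleGraph.Walk.mem_support_append_iff] at hw
    rcases hw with hw | hw
    · exact hp2 w hw
    · exact hq2 w hw

lemma reach_step {V : Type} {G : SimpleGraph V} {S : Finset V} {x y : V}
    (hx : x ∉ S) (hy : y ∉ S) (h : x = y ∨ G.Adj x y) : Reach G S 1 x y := by
  rcases h with rfl | h
  · exact ⟨SimpleGraph.Walk.nil, by simp, by simpa using hx⟩
  · refine ⟨SimpleGraph.Walk.cons h SimpleGraph.Walk.nil, by simp, ?_⟩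
    intro z hz
    simp only [SimpleGraph.Walk.support_cons, SimpleGraph.Walk.support_nil, List.mem_cons,
      List.not_mem_nil, or_false] at hz
    rcases hz with rfl | rfl
    · exact hx
    · exact hy

lemma reach_mono {V : Type} {G : SimpleGraph V} {S : Finset V} {m m' : ℕ} {x y : V}
    (h : Reach G S m x y) (hm : m ≤ m') : Reach G S m' x y := by
  obtain ⟨p, hp, hp2⟩ := h
  exact ⟨p, hp.trans hm, hp2⟩

/-- The complete bipartite graph with parts of size k and n - k. -/
def K3 (n k : ℕ) : SimpleGraph (Fin n) where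
  Adj u v := (u.val < k ∧ k ≤ v.val) ∨ (k ≤ u.val ∧ v.val < k)
  symm := ⟨fun _ _ h => by omega⟩
  loopless := ⟨fun _ h => by omega⟩

/-- Copies of the complete graph on k vertices; the vertex of index i of each copy is joined to
the vertex of index i of the zeroth copy, and the vertices of the last incomplete copy to the whole
zeroth copy. -/
def K4 (n k : ℕ) : SimpleGraph (Fin n) where
  Adj u v := u ≠ v ∧ (u.val / k = v.val / k ∨
    (v.val / k = 0 ∧ (u.val % k = v.val % k ∨ u.val / k = n / k)) ∨
    (u.val / k = 0 ∧ (v.val % k = u.val % k ∨ v.val / k = n / k)))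
  symm := ⟨fun _ _ h => ⟨h.1.symm, by
    rcases h.2 with h | h | h
    · exact Or.inl h.symm
    · exact Or.inr (Or.inr h)
    · exact Or.inr (Or.inl h)⟩⟩
  loopless := ⟨fun _ h => h.1 rfl⟩

lemma exists_not_mem {n : ℕ} (S : Finset (Fin n)) (A : Finset (Fin n)) (h : S.card < A.card) :
    ∃ v ∈ A, v ∉ S := by
  by_contra hcon
  push Not at hcon
  exact absurd (Finset.card_le_card hcon) (by omega)

lemma K3_good (n k : ℕ) (hk : 1 ≤ k) (hn : 2 * k ≤ n) : Good (K3 n k) 3 k := by
  rw [good_iff]
  intro S hS x y hx hy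
  have e1 : (Finset.univ.filter (fun v : Fin n => v.val < k)).card = k := by
    rw [Fin.card_filter_val_lt]; omega
  have e2 : (Finset.univ.filter (fun v : Fin n => k ≤ v.val)).card = n - k := by
    have := Finset.card_filter_add_card_filter_not (s := (Finset.univ : Finset (Fin n)))
      (fun v : Fin n => v.val < k)
    simp only [not_lt, Finset.card_univ, Fintype.card_fin] at this
    omega
  obtain ⟨h, hh1, hh2⟩ := exists_not_mem S _ (show S.card < _ by rw [e1]; omega)
  obtain ⟨l, hl1, hl2⟩ := exists_not_mem S _ (show S.card < _ by rw [e2]; omega)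
  simp only [Finset.mem_filter, Finset.mem_univ, true_and] at hh1 hl1
  change Reach (K3 n k) S 3 x y
  by_cases hxk : x.val < k
  · by_cases hyk : y.val < k
    · exact reach_mono (reach_trans (reach_step hx hl2 (Or.inr (Or.inl ⟨hxk, hl1⟩)))
        (reach_step hl2 hy (Or.inr (Or.inr ⟨hl1, hyk⟩)))) (by norm_num)
    · exact reach_mono (reach_step hx hy (Or.inr (Or.inl ⟨hxk, by omega⟩))) (by norm_num)
  · by_cases hyk : y.val < k
    · exact reach_mono (reach_step hx hy (Or.inr (Or.inr ⟨by omega, hyk⟩))) (by norm_num)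
    · exact reach_mono (reach_trans (reach_step hx hh2 (Or.inr (Or.inr ⟨by omega, hh1⟩)))
        (reach_step hh2 hy (Or.inr (Or.inl ⟨hh1, by omega⟩)))) (by norm_num)

lemma K3_edges (n k : ℕ) (hn : 2 * k ≤ n) : (K3 n k).edgeSet.ncard ≤ k * n := by
  classical
  have e1 : (Finset.univ.filter (fun v : Fin n => v.val < k)).card = k := by
    rw [Fin.card_filter_val_lt]; omega
  have h : 2 * (K3 n k).edgeSet.ncard ≤ 2 * (k * n) := by
    rw [two_e]
    have h1 : ∀ x : Fin n, (Finset.univ.filter (fun u => (K3 n k).Adj x u)).card ≤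
        k + (if x.val < k then n else 0) := by
      intro x
      split_ifs with hx
      · have := Finset.card_le_univ (Finset.univ.filter (fun u => (K3 n k).Adj x u))
        rw [Fintype.card_fin] at this
        omega
      · rw [add_zero]
        refine le_trans (Finset.card_le_card ?_) e1.le
        intro u hu
        simp only [Finset.mem_filter, Finset.mem_univ, true_and] at hu ⊢
        rcases hu with hu | hu
        · exact absurd hu.1 hx
        · exact hu.2
    refine le_trans (Finset.sum_le_sum (fun x _ => h1 x)) ?_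
    rw [Finset.sum_add_distrib, Finset.sum_const, ← Finset.sum_filter, Finset.sum_const, e1,
      Finset.card_univ, Fintype.card_fin, smul_eq_mul, smul_eq_mul]
    apply le_of_eq; ring
  omega

lemma K4_good (n k : ℕ) (hk : 1 ≤ k) (hn : k ≤ n) : Good (K4 n k) 4 k := by
  rw [good_iff]
  intro S hS x y hx hy
  change Reach (K4 n k) S 4 x y
  -- connectors
  have hb : ∀ x : Fin n, ∀ l : ℕ, l < k → ¬ x.val / k = n / k → (x.val / k) * k + l < n := by
    intro x l hl hne
    have h1 : x.val / k ≤ n / k := Nat.div_le_div_right x.isLt.le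
    have h2 : x.val / k + 1 ≤ n / k := by omega
    have h3 : (x.val / k + 1) * k ≤ n / k * k := Nat.mul_le_mul_right _ h2
    have h4 : n / k * k ≤ n := Nat.div_mul_le_self _ _
    have h5 : (x.val / k + 1) * k = (x.val / k) * k + k := by ring
    omega
  have hc : ∀ x : Fin n, x ∉ S → ∀ l : Fin k, ∃ c : Fin n,
      (x = c ∨ (K4 n k).Adj x c) ∧ (c = Fin.castLE hn l ∨ (K4 n k).Adj c (Fin.castLE hn l)) ∧
      (c ∈ S → c.val % k = l.val) := by
    intro x hx l
    by_cases hxn : x.val / k = n / k
    · refine ⟨x, Or.inl rfl, ?_, fun h => absurd h hx⟩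
      by_cases hxl : x = Fin.castLE hn l
      · exact Or.inl hxl
      · right
        refine ⟨hxl, Or.inr (Or.inl ⟨?_, Or.inr hxn⟩)⟩
        exact Nat.div_eq_of_lt l.isLt
    · have hlt := hb x l l.isLt hxn
      have hd : ((x.val / k) * k + l.val) / k = x.val / k := by
        rw [mul_comm, Nat.mul_add_div hk, Nat.div_eq_of_lt l.isLt, add_zero]
      have hm : ((x.val / k) * k + l.val) % k = l.val := by
        rw [mul_comm, Nat.mul_add_mod, Nat.mod_eq_of_lt l.isLt]
      refine ⟨⟨(x.val / k) * k + l.val, hlt⟩, ?_, ?_, fun _ => hm⟩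
      · by_cases hxc : x = ⟨(x.val / k) * k + l.val, hlt⟩
        · exact Or.inl hxc
        · right
          exact ⟨hxc, Or.inl hd.symm⟩
      · by_cases hcl : (⟨(x.val / k) * k + l.val, hlt⟩ : Fin n) = Fin.castLE hn l
        · exact Or.inl hcl
        · right
          refine ⟨hcl, Or.inr (Or.inl ⟨Nat.div_eq_of_lt l.isLt, Or.inl ?_⟩)⟩
          change ((x.val / k) * k + l.val) % k = l.val % k
          rw [hm, Nat.mod_eq_of_lt l.isLt]
  choose cx hcx1 hcx2 hcx3 using (hc x hx)
  choose cy hcy1 hcy2 hcy3 using (hc y hy)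
  have hex : ∃ l : Fin k, Fin.castLE hn l ∉ S ∧ cx l ∉ S ∧ cy l ∉ S := by
    by_contra hcon
    push Not at hcon
    have hf : ∀ l : Fin k, ∃ s ∈ S, s.val % k = l.val := by
      intro l
      by_cases h1 : Fin.castLE hn l ∈ S
      · exact ⟨_, h1, Nat.mod_eq_of_lt l.isLt⟩
      · by_cases h2 : cx l ∈ S
        · exact ⟨_, h2, hcx3 l h2⟩
        · have h3 := hcon l h1 h2
          exact ⟨_, h3, hcy3 l h3⟩
    choose f hf1 hf2 using hf
    have hinj : Function.Injective f := by
      intro a b hab
      apply Fin.ext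
      rw [← hf2 a, ← hf2 b, hab]
    have h4 := Finset.card_le_card_of_injOn (s := (Finset.univ : Finset (Fin k))) (t := S) f
      (fun l _ => hf1 l) hinj.injOn
    rw [Finset.card_univ, Fintype.card_fin] at h4
    omega
  obtain ⟨l, h1, h2, h3⟩ := hex
  have r1 := reach_step hx h2 (hcx1 l)
  have r2 := reach_step h2 h1 (hcx2 l)
  have r3 : Reach (K4 n k) S 1 (Fin.castLE hn l) (cy l) := by
    apply reach_step h1 h3
    rcases hcy2 l with h | h
    · exact Or.inl h.symm
    · exact Or.inr h.symm
  have r4 : Reach (K4 n k) S 1 (cy l) y := by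
    apply reach_step h3 hy
    rcases hcy1 l with h | h
    · exact Or.inl h.symm
    · exact Or.inr h.symm
  exact reach_trans (reach_trans (reach_trans r1 r2) r3) r4

lemma group_card (n k g : ℕ) (hk : 1 ≤ k) :
    (Finset.univ.filter (fun v : Fin n => v.val / k = g)).card ≤ k := by
  have h := Finset.card_le_card_of_injOn
    (s := Finset.univ.filter (fun v : Fin n => v.val / k = g)) (t := Finset.range k)
    (fun v => v.val % k) (fun v _ => Finset.mem_coe.2 (Finset.mem_range.2 (Nat.mod_lt _ hk)))
    (by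
      intro a ha b hb hab
      simp only [Finset.coe_filter, Finset.mem_univ, true_and, Set.mem_ofPred_eq] at ha hb hab
      apply Fin.ext
      rw [← Nat.div_add_mod a.val k, ← Nat.div_add_mod b.val k, ha, hb, hab])
  simpa using h

lemma K4_edges (n k : ℕ) (hk : 1 ≤ k) :
    2 * (K4 n k).edgeSet.ncard ≤ (k + 1) * n + 2 * (k * k) := by
  classical
  rw [two_e]
  let P1 : Fin n → Finset (Fin n) := fun u =>
    (Finset.univ.filter (fun v : Fin n => v.val / k = u.val / k)).erase u
  let P2 : Fin n → Finset (Fin n) := fun u =>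
    Finset.univ.filter (fun v : Fin n => v.val / k = 0 ∧ v.val % k = u.val % k)
  let P3 : Fin n → Finset (Fin n) := fun u =>
    Finset.univ.filter (fun v : Fin n => v.val / k = 0 ∧ u.val / k = n / k)
  let P4 : Fin n → Finset (Fin n) := fun u =>
    Finset.univ.filter (fun v : Fin n => u.val / k = 0 ∧ v.val % k = u.val % k)
  let P5 : Fin n → Finset (Fin n) := fun u =>
    Finset.univ.filter (fun v : Fin n => u.val / k = 0 ∧ v.val / k = n / k)
  have hdeg : ∀ u : Fin n, (Finset.univ.filter (fun v => (K4 n k).Adj u v)).card ≤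
      (P1 u).card + (P2 u).card + (P3 u).card + (P4 u).card + (P5 u).card := by
    intro u
    have hsub : (Finset.univ.filter (fun v => (K4 n k).Adj u v)) ⊆
        (((P1 u ∪ P2 u) ∪ P3 u) ∪ P4 u) ∪ P5 u := by
      intro v hv
      simp only [Finset.mem_filter, Finset.mem_univ, true_and] at hv
      simp only [P1, P2, P3, P4, P5, Finset.mem_union, Finset.mem_erase, Finset.mem_filter,
        Finset.mem_univ, true_and]
      obtain ⟨hne, h | ⟨h1, h2 | h2⟩ | ⟨h1, h2 | h2⟩⟩ := hv
      · exact Or.inl (Or.inl (Or.inl (Or.inl ⟨hne.symm, h.symm⟩)))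
      · exact Or.inl (Or.inl (Or.inl (Or.inr ⟨h1, h2.symm⟩)))
      · exact Or.inl (Or.inl (Or.inr ⟨h1, h2⟩))
      · exact Or.inl (Or.inr ⟨h1, h2⟩)
      · exact Or.inr ⟨h1, h2⟩
    refine le_trans (Finset.card_le_card hsub) ?_
    have a1 := Finset.card_union_le (((P1 u ∪ P2 u) ∪ P3 u) ∪ P4 u) (P5 u)
    have a2 := Finset.card_union_le ((P1 u ∪ P2 u) ∪ P3 u) (P4 u)
    have a3 := Finset.card_union_le (P1 u ∪ P2 u) (P3 u)
    have a4 := Finset.card_union_le (P1 u) (P2 u)
    omega
  refine le_trans (Finset.sum_le_sum (fun u _ => hdeg u)) ?_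
  rw [Finset.sum_add_distrib, Finset.sum_add_distrib, Finset.sum_add_distrib,
    Finset.sum_add_distrib]
  have s1 : ∑ u : Fin n, (P1 u).card ≤ n * (k - 1) := by
    have : ∀ u ∈ (Finset.univ : Finset (Fin n)), (P1 u).card ≤ k - 1 := by
      intro u _
      have h1 : u ∈ Finset.univ.filter (fun v : Fin n => v.val / k = u.val / k) := by simp
      have h2 := group_card n k (u.val / k) hk
      simp only [P1]
      rw [Finset.card_erase_of_mem h1]
      omega
    have := Finset.sum_le_card_nsmul _ _ _ this
    simpa using this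
  have s2 : ∑ u : Fin n, (P2 u).card ≤ n * 1 := by
    have : ∀ u ∈ (Finset.univ : Finset (Fin n)), (P2 u).card ≤ 1 := by
      intro u _
      rw [Finset.card_le_one]
      intro a ha b hb
      simp only [P2, Finset.mem_filter, Finset.mem_univ, true_and] at ha hb
      apply Fin.ext
      rw [← Nat.div_add_mod a.val k, ← Nat.div_add_mod b.val k, ha.1, hb.1, ha.2, hb.2]
    have := Finset.sum_le_card_nsmul _ _ _ this
    simpa using this
  have s4 : ∑ u : Fin n, (P4 u).card ≤ n * 1 := by
    have h1 : ∑ u : Fin n, (P4 u).card = ∑ u : Fin n, (P2 u).card := by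
      have := Finset.sum_card_bipartiteAbove_eq_sum_card_bipartiteBelow
        (s := (Finset.univ : Finset (Fin n))) (t := (Finset.univ : Finset (Fin n)))
        (fun u v : Fin n => u.val / k = 0 ∧ v.val % k = u.val % k)
      refine Eq.trans this ?_
      apply Finset.sum_congr rfl
      intro u _
      congr 1
      ext v
      simp only [Finset.bipartiteBelow, P2, Finset.mem_filter, Finset.mem_univ, true_and]
      constructor
      · rintro ⟨h1, h2⟩; exact ⟨h1, h2.symm⟩
      · rintro ⟨h1, h2⟩; exact ⟨h1, h2.symm⟩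
    rw [h1]; exact s2
  have s3 : ∑ u : Fin n, (P3 u).card ≤ k * k := by
    have h1 : ∀ u ∈ (Finset.univ : Finset (Fin n)), (P3 u).card ≤
        if u.val / k = n / k then k else 0 := by
      intro u _
      split_ifs with h
      · refine le_trans (Finset.card_le_card ?_) (group_card n k 0 hk)
        intro v hv
        simp only [P3, Finset.mem_filter, Finset.mem_univ, true_and] at hv ⊢
        exact hv.1
      · apply le_of_eq
        rw [Finset.card_eq_zero]
        apply Finset.filter_eq_empty_iff.2
        intro v _ hv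
        exact h hv.2
    refine le_trans (Finset.sum_le_sum h1) ?_
    rw [← Finset.sum_filter, Finset.sum_const, smul_eq_mul]
    exact Nat.mul_le_mul_right _ (group_card n k (n / k) hk)
  have s5 : ∑ u : Fin n, (P5 u).card ≤ k * k := by
    have h1 : ∀ u ∈ (Finset.univ : Finset (Fin n)), (P5 u).card ≤
        if u.val / k = 0 then k else 0 := by
      intro u _
      split_ifs with h
      · refine le_trans (Finset.card_le_card ?_) (group_card n k (n / k) hk)
        intro v hv
        simp only [P5, Finset.mem_filter, Finset.mem_univ, true_and] at hv ⊢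
        exact hv.2
      · apply le_of_eq
        rw [Finset.card_eq_zero]
        apply Finset.filter_eq_empty_iff.2
        intro v _ hv
        exact h hv.1
    refine le_trans (Finset.sum_le_sum h1) ?_
    rw [← Finset.sum_filter, Finset.sum_const, smul_eq_mul]
    exact Nat.mul_le_mul_right _ (group_card n k 0 hk)
  obtain ⟨j, rfl⟩ : ∃ j, k = j + 1 := ⟨k - 1, by omega⟩
  simp only [Nat.add_sub_cancel] at s1
  have : n * j + n * 1 + n * 1 = (j + 1 + 1) * n := by ring
  omega

/-! Limits -/

lemma fhat_le {n d k : ℕ} (G : SimpleGraph (Fin n)) (hG : Good G d k) :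
    fhat n d k ≤ G.edgeSet.ncard := Nat.sInf_le ⟨G, hG, rfl⟩

lemma fhat_spec {n d k : ℕ} (G : SimpleGraph (Fin n)) (hG : Good G d k) :
    ∃ G' : SimpleGraph (Fin n), Good G' d k ∧ G'.edgeSet.ncard = fhat n d k :=
  Nat.sInf_mem (s := {e : ℕ | ∃ G : SimpleGraph (Fin n), Good G d k ∧ G.edgeSet.ncard = e})
    ⟨_, G, hG, rfl⟩

lemma lim_lemma (f : ℕ → ℕ) (c C s : ℝ) (hs : 0 ≤ s)
    (hU : ∀ᶠ n : ℕ in atTop, (f n : ℝ) ≤ c * n + C)
    (hL : ∀ D : ℕ, 1 ≤ D → ∃ M : ℝ, ∀ᶠ n : ℕ in atTop, c * D * n ≤ f n * (D + s) + M) :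
    Tendsto (fun n : ℕ => (f n : ℝ) / n) atTop (𝓝 c) := by
  refine tendsto_order.2 ⟨fun a ha => ?_, fun b hb => ?_⟩
  · obtain ⟨D, hD⟩ := exists_nat_gt (max 1 (a * s / (c - a)))
    have hD1 : 1 < (D : ℝ) := lt_of_le_of_lt (le_max_left _ _) hD
    have hD2 : a * s / (c - a) < D := lt_of_le_of_lt (le_max_right _ _) hD
    have hca : 0 < c - a := by linarith
    rw [div_lt_iff₀ hca] at hD2
    obtain ⟨M, hM⟩ := hL D (by exact_mod_cast hD1.le)
    have hδ : 0 < c * D - a * (D + s) := by nlinarith
    obtain ⟨N, hN⟩ := exists_nat_gt (M / (c * D - a * (D + s)))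
    filter_upwards [hM, eventually_ge_atTop (N + 1)] with n hn hnN
    have hn0 : (0 : ℝ) < n := by
      have : (1 : ℝ) ≤ n := by exact_mod_cast (by omega : 1 ≤ n)
      linarith
    have hnN' : (N : ℝ) ≤ n := by exact_mod_cast (by omega : N ≤ n)
    rw [div_lt_iff₀ hδ] at hN
    have h1 : M < n * (c * D - a * (D + s)) :=
      lt_of_lt_of_le hN (mul_le_mul_of_nonneg_right hnN' hδ.le)
    rw [lt_div_iff₀ hn0]
    have h2 : a * n * (D + s) < f n * (D + s) := by nlinarith
    exact lt_of_mul_lt_mul_right h2 (by linarith)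
  · obtain ⟨N, hN⟩ := exists_nat_gt (C / (b - c))
    have hcb : 0 < b - c := by linarith
    rw [div_lt_iff₀ hcb] at hN
    filter_upwards [hU, eventually_ge_atTop (N + 1)] with n hn hnN
    have hn0 : (0 : ℝ) < n := by
      have : (1 : ℝ) ≤ n := by exact_mod_cast (by omega : 1 ≤ n)
      linarith
    have hnN' : (N : ℝ) ≤ n := by exact_mod_cast (by omega : N ≤ n)
    rw [div_lt_iff₀ hn0]
    have h1 : C < n * (b - c) := lt_of_lt_of_le hN (mul_le_mul_of_nonneg_right hnN' hcb.le)
    nlinarith

lemma phihat_tendsto (d k : ℕ) (c : ℝ)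
    (h : Tendsto (fun n : ℕ => (fhat n d k : ℝ) / n) atTop (𝓝 (c + k / 2))) :
    Tendsto (fun n : ℕ => phihat n d k / n) atTop (𝓝 c) := by
  have h1 := h.sub_const ((k : ℝ) / 2)
  rw [add_sub_cancel_right] at h1
  refine h1.congr' ?_
  filter_upwards [eventually_ge_atTop 1] with n hn
  have hn0 : (n : ℝ) ≠ 0 := by
    have : (1 : ℝ) ≤ n := by exact_mod_cast hn
    intro h0; linarith
  unfold phihat
  field_simp

/-- For d = 3 the excess per vertex tends to k / 2 and for d = 4 it tends to 1 / 2. -/
theorem result (k : ℕ) (hk : 1 ≤ k) :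
    Tendsto (fun n : ℕ => phihat n 3 k / n) atTop (𝓝 ((k : ℝ) / 2)) ∧
    Tendsto (fun n : ℕ => phihat n 4 k / n) atTop (𝓝 (1 / 2 : ℝ)) := by
  constructor
  · apply phihat_tendsto
    have e : (k : ℝ) / 2 + k / 2 = k := by ring
    rw [e]
    apply lim_lemma (fun n => fhat n 3 k) (k : ℝ) 0 (2 * k) (by positivity)
    · filter_upwards [eventually_ge_atTop (2 * k)] with n hn
      have h1 := le_trans (fhat_le _ (K3_good n k hk hn)) (K3_edges n k hn)
      rw [add_zero]
      exact_mod_cast h1
    · intro D hD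
      obtain ⟨M, hM⟩ := lower_three k D hk
      refine ⟨M, ?_⟩
      filter_upwards [eventually_ge_atTop (2 * k)] with n hn
      obtain ⟨G, hG, hGe⟩ := fhat_spec _ (K3_good n k hk hn)
      have h1 := hM n (by omega) G hG
      rw [hGe] at h1
      exact_mod_cast h1
  · apply phihat_tendsto
    apply lim_lemma (fun n => fhat n 4 k) (1 / 2 + k / 2 : ℝ) (k * k) (k + 1) (by positivity)
    · filter_upwards [eventually_ge_atTop k] with n hn
      have h1 : 2 * fhat n 4 k ≤ (k + 1) * n + 2 * (k * k) :=
        le_trans (Nat.mul_le_mul_left 2 (fhat_le _ (K4_good n k hk hn))) (K4_edges n k hk)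
      have h2 : (2 : ℝ) * fhat n 4 k ≤ (k + 1) * n + 2 * (k * k) := by exact_mod_cast h1
      linarith
    · intro D hD
      obtain ⟨M, hM⟩ := lower_four k D hk
      refine ⟨M / 2, ?_⟩
      filter_upwards [eventually_ge_atTop (k + 1)] with n hn
      obtain ⟨G, hG, hGe⟩ := fhat_spec _ (K4_good n k hk (by omega))
      have h1 := hM n hn G hG
      rw [hGe] at h1
      have h2 : ((k : ℝ) + 1) * D * n ≤ 2 * (fhat n 4 k * (D + (k + 1))) + M := by
        exact_mod_cast h1
      linarith

end Pool.Agent.Results.MP_1438b7_co.SmallDiameters
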